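import Pool.Agent.X234.KR.Main

/-!
# Convex combinations of Kolmogorov random measures are Kolmogorov random

Any two Kolmogorov random measures have almost maximal complexity at infinitely many common lengths.
-/

set_option autoImplicit false

namespace Pool.Agent.Results.MP_8ca5b0_lc.ConvexRandom

open MeasureTheory

/-- `V` is a universal (optimal) plain machine: it is partial recursive and simulates every partial
recursive function on strings with programs longer by at most a constant. -/
def PlainUniversal (V : List Bool →. List Bool) : Prop :=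
  Partrec V ∧ ∀ M : List Bool →. List Bool, Partrec M →
    ∃ c : ℕ, ∀ p y : List Bool, y ∈ M p → ∃ p' : List Bool, p'.length ≤ p.length + c ∧ y ∈ V p'

/-- The complexity of the string `y` with respect to the machine `V`: the least length of a
program for `y`. For a universal plain machine this is the plain complexity `C(y)`. -/
noncomputable def compl (V : List Bool →. List Bool) (y : List Bool) : ℕ :=
  sInf {n | ∃ p : List Bool, p.length = n ∧ y ∈ V p}

/-- The complexity of the measure `μ` at length `n`: the `μ`-average of the complexities of the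
strings of length `n`. -/
noncomputable def measCompl (V : List Bool →. List Bool) (μ : Measure (ℕ → Bool)) (n : ℕ) : ℝ :=
  ∑ x : Fin n → Bool, μ.real {X | ∀ i : Fin n, X i = x i} * (compl V (List.ofFn x) : ℝ)

/-- `μ` is Kolmogorov random: for some `d` the inequality `C (μ ↾ n) ≥ n - d` holds for infinitely
many `n`. -/
def KolmogorovRandom (V : List Bool →. List Bool) (μ : Measure (ℕ → Bool)) : Prop :=
  ∃ d : ℝ, ∃ᶠ n : ℕ in Filter.atTop, (n : ℝ) - d ≤ measCompl V μ n

/-- Universal plain machines exist, and for every universal plain machine and all Kolmogorov random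
Borel probability measures `μ`, `ν` on Cantor space: every convex combination of `μ` and `ν` is a
Kolmogorov random probability measure; moreover there is `d` such that
`C (μ ↾ n) ≥ n - d` and `C (ν ↾ n) ≥ n - d` hold simultaneously for infinitely many `n`. -/
theorem result : (∃ V, PlainUniversal V) ∧
    ∀ V : List Bool →. List Bool, PlainUniversal V →
      ∀ μ ν : Measure (ℕ → Bool), IsProbabilityMeasure μ → IsProbabilityMeasure ν →
        KolmogorovRandom V μ → KolmogorovRandom V ν →
          (∀ t : ℝ, 0 ≤ t → t ≤ 1 →
            IsProbabilityMeasure (ENNReal.ofReal t • μ + ENNReal.ofReal (1 - t) • ν) ∧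
            KolmogorovRandom V (ENNReal.ofReal t • μ + ENNReal.ofReal (1 - t) • ν)) ∧
          ∃ d : ℝ, ∃ᶠ n : ℕ in Filter.atTop,
            (n : ℝ) - d ≤ measCompl V μ n ∧ (n : ℝ) - d ≤ measCompl V ν n := by
  refine ⟨X234.MC.exists_plain, ?_⟩
  intro V hV μ ν hμ hν h1 h2
  have h1' : X234.KR.KRandom V μ := by
    obtain ⟨d, hd⟩ := h1
    exact ⟨d, fun N => Filter.frequently_atTop.1 hd N⟩
  have h2' : X234.KR.KRandom V ν := by
    obtain ⟨d, hd⟩ := h2
    exact ⟨d, fun N => Filter.frequently_atTop.1 hd N⟩
  refine ⟨fun t ht0 ht1 => ⟨⟨?_⟩, ?_⟩, ?_⟩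
  · rw [Measure.add_apply, Measure.smul_apply, Measure.smul_apply, measure_univ, measure_univ,
      smul_eq_mul, smul_eq_mul, mul_one, mul_one, ← ENNReal.ofReal_add ht0 (by linarith)]
    simp
  · obtain ⟨d, hd⟩ := X234.KR.convex hV μ ν h1' h2' t ht0 ht1
    exact ⟨d, Filter.frequently_atTop.2 hd⟩
  · obtain ⟨d, hd⟩ := X234.KR.common hV μ ν h1' h2'
    exact ⟨d, Filter.frequently_atTop.2 hd⟩

end Pool.Agent.Results.MP_8ca5b0_lc.ConvexRandom
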